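import Pool.Agent.Q6.EKR.Struct
import Pool.Agent.Q6.HP.Over

/-!
# The numbers of triangle-free graphs and of bipartite graphs
-/

set_option autoImplicit false
set_option maxHeartbeats 400000

namespace Pool.Agent.Q6.EKR

open Finset
open Pool.Agent.Q6.HP (enum enum_mem exists_enum)

open Classical in
/-- the triangle-free graphs -/
noncomputable def tri (n : ℕ) : Finset (SimpleGraph (Fin n)) :=
  univ.filter (fun G => G.CliqueFree 3)

open Classical in
/-- the bipartite graphs -/
noncomputable def bip (n : ℕ) : Finset (SimpleGraph (Fin n)) :=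
  univ.filter (fun G => G.Colorable 2)

theorem mem_tri {n : ℕ} (G : SimpleGraph (Fin n)) : G ∈ tri n ↔ G.CliqueFree 3 := by
  simp [tri]

theorem mem_bip {n : ℕ} (G : SimpleGraph (Fin n)) : G ∈ bip n ↔ G.Colorable 2 := by
  simp [bip]

theorem bip_sub_tri (n : ℕ) : bip n ⊆ tri n := by
  intro G hG
  rw [mem_tri]
  exact ((mem_bip G).1 hG).cliqueFree (by norm_num)

theorem bip_pos (n : ℕ) : 0 < (bip n).card := by
  rw [Finset.card_pos]
  refine ⟨⊥, ?_⟩
  rw [mem_bip]
  exact ⟨SimpleGraph.Coloring.mk (fun _ => 0) (fun {u v} h => absurd h (by simp))⟩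

/-- add a vertex adjacent to the vertices of `S` -/
def extend {n : ℕ} (H : SimpleGraph (Fin n)) (S : Finset (Fin n)) :
    SimpleGraph (Fin (n + 1)) where
  Adj x y := (∃ a b, x = Fin.castSucc a ∧ y = Fin.castSucc b ∧ H.Adj a b) ∨
    (x = Fin.last n ∧ ∃ b ∈ S, y = Fin.castSucc b) ∨
    (y = Fin.last n ∧ ∃ b ∈ S, x = Fin.castSucc b)
  symm := ⟨by
    rintro x y (⟨a, b, h1, h2, h3⟩ | h | h)
    · exact Or.inl ⟨b, a, h2, h1, h3.symm⟩
    · exact Or.inr (Or.inr h)
    · exact Or.inr (Or.inl h)⟩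
  loopless := ⟨by
    rintro x (⟨a, b, h1, h2, h3⟩ | ⟨h, b, hb, h'⟩ | ⟨h, b, hb, h'⟩)
    · rw [h1] at h2
      have := Fin.castSucc_injective _ h2
      subst this
      exact H.irrefl h3
    · rw [h] at h'
      exact (Fin.castSucc_lt_last b).ne' h'
    · rw [h] at h'
      exact (Fin.castSucc_lt_last b).ne' h'⟩

theorem extend_comap {n : ℕ} (H : SimpleGraph (Fin n)) (S : Finset (Fin n)) :
    (extend H S).comap Fin.castSucc = H := by
  ext a b
  rw [SimpleGraph.comap_adj]
  constructor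
  · rintro (⟨a', b', h1, h2, h3⟩ | ⟨h, -⟩ | ⟨h, -⟩)
    · rwa [Fin.castSucc_injective _ h1, Fin.castSucc_injective _ h2]
    · exact absurd h (Fin.castSucc_lt_last a).ne
    · exact absurd h (Fin.castSucc_lt_last b).ne
  · intro h
    exact Or.inl ⟨a, b, rfl, rfl, h⟩

theorem extend_last {n : ℕ} (H : SimpleGraph (Fin n)) (S : Finset (Fin n)) (b : Fin n) :
    (extend H S).Adj (Fin.last n) b.castSucc ↔ b ∈ S := by
  constructor
  · rintro (⟨a', b', h1, h2, h3⟩ | ⟨-, c, hc, h⟩ | ⟨h, -⟩)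
    · exact absurd h1 (Fin.castSucc_lt_last a').ne'
    · rwa [Fin.castSucc_injective _ h]
    · exact absurd h (Fin.castSucc_lt_last b).ne
  · intro h
    exact Or.inr (Or.inl ⟨rfl, b, h, rfl⟩)

theorem extend_colorable {n : ℕ} (H : SimpleGraph (Fin n)) (S : Finset (Fin n))
    (C : H.Coloring (Fin 2)) (c : Fin 2) (hS : ∀ v ∈ S, C v = c) : (extend H S).Colorable 2 := by
  refine ⟨SimpleGraph.Coloring.mk (Fin.snoc (α := fun _ => Fin 2) (fun v => C v) (c + 1)) ?_⟩
  have hc : c ≠ c + 1 := by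
    fin_cases c <;> decide
  rintro u v (⟨a, b, rfl, rfl, h⟩ | ⟨rfl, b, hb, rfl⟩ | ⟨rfl, b, hb, rfl⟩)
  · rw [Fin.snoc_castSucc, Fin.snoc_castSucc]
    exact C.valid h
  · rw [Fin.snoc_castSucc, Fin.snoc_last, hS b hb]
    exact hc.symm
  · rw [Fin.snoc_castSucc, Fin.snoc_last, hS b hb]
    exact hc

open Classical in
theorem fiber_bip {n : ℕ} (H : SimpleGraph (Fin n)) (hH : H ∈ bip n) (s : ℝ) (hs : 1 ≤ s)
    (hs2 : s ^ 2 = 2) :
    s ^ n ≤ ((bip (n + 1)).filter (fun G => G.comap Fin.castSucc = H)).card := by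
  obtain ⟨C⟩ := (mem_bip H).1 hH
  have h1 : (univ.filter (fun v => C v = 0)).card + (univ.filter (fun v => C v = 1)).card = n := by
    have h2 : (univ.filter (fun v => C v = 1)) = univ.filter (fun v => ¬ C v = 0) := by
      ext v
      simp only [mem_filter, mem_univ, true_and]
      omega
    rw [h2, Finset.card_filter_add_card_filter_not, Finset.card_univ, Fintype.card_fin]
  have h2 : ∃ c : Fin 2, n ≤ 2 * (univ.filter (fun v => C v = c)).card := by
    by_cases h : n ≤ 2 * (univ.filter (fun v => C v = 0)).card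
    · exact ⟨0, h⟩
    · exact ⟨1, by omega⟩
  obtain ⟨c, hc⟩ := h2
  have h3 : (univ.filter (fun v => C v = c)).powerset.card ≤
      ((bip (n + 1)).filter (fun G => G.comap Fin.castSucc = H)).card := by
    apply Finset.card_le_card_of_injOn (fun S => extend H S)
    · intro S hS
      rw [mem_coe, mem_powerset] at hS
      rw [mem_coe, mem_filter, mem_bip]
      refine ⟨extend_colorable H S C c (fun v hv => ?_), extend_comap H S⟩
      have := hS hv
      simpa using this
    · intro S _ S' _ he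
      ext b
      rw [← extend_last H S b, ← extend_last H S' b]
      have he' : extend H S = extend H S' := he
      rw [he']
  rw [Finset.card_powerset] at h3
  calc s ^ n ≤ s ^ (2 * (univ.filter (fun v => C v = c)).card) := pow_le_pow_right₀ hs hc
    _ = 2 ^ (univ.filter (fun v => C v = c)).card := by rw [pow_mul, hs2]
    _ ≤ _ := by exact_mod_cast h3

theorem bip_succ (n : ℕ) (s : ℝ) (hs : 1 ≤ s) (hs2 : s ^ 2 = 2) :
    s ^ n * (bip n).card ≤ (bip (n + 1)).card := by
  classical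
  have h1 : (bip (n + 1)).card =
      ∑ H ∈ bip n, ((bip (n + 1)).filter (fun G => G.comap Fin.castSucc = H)).card := by
    apply Finset.card_eq_sum_card_fiberwise
    intro G hG
    rw [mem_coe, mem_bip] at hG ⊢
    obtain ⟨C⟩ := hG
    exact ⟨C.comp (SimpleGraph.Embedding.comap Fin.castSuccEmb G).toHom⟩
  rw [h1]
  push_cast
  calc s ^ n * (bip n).card = ∑ _H ∈ bip n, s ^ n := by
        rw [Finset.sum_const, nsmul_eq_mul, mul_comm]
    _ ≤ _ := Finset.sum_le_sum (fun H hH => fiber_bip H hH s hs hs2)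

theorem bip_add (m k : ℕ) (s : ℝ) (hs : 1 ≤ s) (hs2 : s ^ 2 = 2) :
    s ^ (k * m) * (bip m).card ≤ (bip (m + k)).card := by
  induction k with
  | zero => simp
  | succ k ih =>
    have h1 := bip_succ (m + k) s hs hs2
    have h2 : s ^ ((k + 1) * m) ≤ s ^ (m + k) * s ^ (k * m) := by
      rw [← pow_add]
      apply pow_le_pow_right₀ hs
      nlinarith
    have h3 : (0 : ℝ) ≤ (bip m).card := Nat.cast_nonneg _
    have h4 : (0 : ℝ) ≤ s ^ (m + k) := by positivity
    calc s ^ ((k + 1) * m) * (bip m).card ≤ s ^ (m + k) * s ^ (k * m) * (bip m).card :=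
          mul_le_mul_of_nonneg_right h2 h3
      _ = s ^ (m + k) * (s ^ (k * m) * (bip m).card) := by ring
      _ ≤ s ^ (m + k) * (bip (m + k)).card := mul_le_mul_of_nonneg_left ih h4
      _ ≤ _ := h1

variable {n : ℕ}

theorem ext_fiber (W : Finset (Fin n)) (G G' : SimpleGraph (Fin n))
    (h : G.comap (enum W) = G'.comap (enum W))
    (h' : ∀ u, u ∉ W → ∀ z, G.Adj u z ↔ G'.Adj u z) : G = G' := by
  ext u z
  by_cases hu : u ∈ W
  · by_cases hz : z ∈ W
    · obtain ⟨a, ha⟩ := exists_enum W u hu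
      obtain ⟨b, hb⟩ := exists_enum W z hz
      have h1 := congrArg (fun K : SimpleGraph (Fin W.card) => K.Adj a b) h
      simp only [SimpleGraph.comap_adj, ha, hb, eq_iff_iff] at h1
      exact h1
    · rw [G.adj_comm, G'.adj_comm]
      exact h' z hz u
  · exact h' u hu z

theorem adj_of_fiber (W : Finset (Fin n)) (G G' : SimpleGraph (Fin n))
    (h : G.comap (enum W) = G'.comap (enum W)) (u z : Fin n) (hu : u ∈ W) (hz : z ∈ W) :
    G.Adj u z ↔ G'.Adj u z := by
  obtain ⟨a, ha⟩ := exists_enum W u hu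
  obtain ⟨b, hb⟩ := exists_enum W z hz
  have h1 := congrArg (fun K : SimpleGraph (Fin W.card) => K.Adj a b) h
  simp only [SimpleGraph.comap_adj, ha, hb, eq_iff_iff] at h1
  exact h1

open Classical in
theorem fiber_bound (W : Finset (Fin n)) (Γ : Finset (SimpleGraph (Fin n)))
    (hΓ : ∀ G ∈ Γ, G.CliqueFree 3) (M : ℝ)
    (hM : ∀ H, ((Γ.filter (fun G => G.comap (enum W) = H)).card : ℝ) ≤ M) :
    (Γ.card : ℝ) ≤ (tri W.card).card * M := by
  have h1 : Γ.card = ∑ H ∈ tri W.card, (Γ.filter (fun G => G.comap (enum W) = H)).card := by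
    apply Finset.card_eq_sum_card_fiberwise
    intro G hG
    rw [mem_coe, mem_tri]
    exact (hΓ G hG).comap ⟨(SimpleGraph.Embedding.comap (enum W) G).toCopy⟩
  rw [h1]
  push_cast
  calc ∑ H ∈ tri W.card, ((Γ.filter (fun G => G.comap (enum W) = H)).card : ℝ) ≤
        ∑ _H ∈ tri W.card, M := Finset.sum_le_sum (fun H _ => hM H)
    _ = _ := by rw [Finset.sum_const, nsmul_eq_mul]

end Pool.Agent.Q6.EKR
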