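import Mathlib

/-!
# Graphs in which the neighbourhoods of small sets of neighbours are nearly half of the vertices

A graph in which the vertices have large degrees, every set of `L` vertices has nearly half of all
vertices as neighbours, and the neighbourhoods of sets of `L` neighbours of the two ends of an edge
are nearly disjoint, is bipartite.
-/

set_option autoImplicit false
set_option maxHeartbeats 400000

namespace Pool.Agent.Q6.EKR

open Finset

variable {V : Type} [Fintype V] [DecidableEq V]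

open Classical in
/-- The vertices with a neighbour in `Q`. -/
noncomputable def Rn (G : SimpleGraph V) (Q : Finset V) : Finset V :=
  univ.filter (fun z => ∃ q ∈ Q, G.Adj q z)

theorem mem_Rn (G : SimpleGraph V) (Q : Finset V) (z : V) : z ∈ Rn G Q ↔ ∃ q ∈ Q, G.Adj q z := by
  classical simp [Rn]

/-- Two sets which are nearly disjoint from a third one, all of nearly half of the points. -/
theorem near (n μ ρ : ℝ) (hn : (Fintype.card V : ℝ) = n) (A B C : Finset V)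
    (hB : (1 / 2 - μ) * n ≤ (B.card : ℝ)) (hC : (1 / 2 - μ) * n ≤ (C.card : ℝ))
    (hAC : ((A ∩ C).card : ℝ) ≤ ρ * n) (hBC : ((B ∩ C).card : ℝ) ≤ ρ * n) :
    ((A \ B).card : ℝ) ≤ (2 * μ + 2 * ρ) * n := by
  have h1 : (((A ∪ B) ∩ C).card : ℝ) ≤ (A ∩ C).card + (B ∩ C).card := by
    rw [Finset.union_inter_distrib_right]
    exact_mod_cast Finset.card_union_le _ _
  have h2 : (((A ∪ B) ∪ C).card : ℝ) + ((A ∪ B) ∩ C).card = (A ∪ B).card + C.card := by
    exact_mod_cast Finset.card_union_add_card_inter (A ∪ B) C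
  have h3 : (((A ∪ B) ∪ C).card : ℝ) ≤ n := by
    rw [← hn]
    exact_mod_cast Finset.card_le_univ _
  have h4 : ((A ∪ B).card : ℝ) = (A \ B).card + B.card := by
    have : (A ∪ B).card = (A \ B).card + B.card := by
      rw [← Finset.card_sdiff_add_card A B]
    exact_mod_cast this
  linarith

theorem struct (G : SimpleGraph V) (L : ℕ) (n μ ρ : ℝ) (hn : (Fintype.card V : ℝ) = n)
    (hn0 : 0 < n) (hμ : 0 ≤ μ) (hρ : 0 ≤ ρ) (hs : 100 * (μ + ρ) ≤ 1)
    (hdeg : ∀ v, ∃ S : Finset V, (∀ w ∈ S, G.Adj v w) ∧ 2 * L + 2 ≤ S.card)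
    (h1 : ∀ Q : Finset V, Q.card = L → (1 / 2 - μ) * n ≤ ((Rn G Q).card : ℝ))
    (h2 : ∀ x y, G.Adj x y → ∀ Q Q' : Finset V, Q.card = L → Q'.card = L →
      (∀ q ∈ Q, G.Adj x q ∧ q ≠ y) → (∀ q ∈ Q', G.Adj y q ∧ q ≠ x) →
      ((Rn G Q ∩ Rn G Q').card : ℝ) ≤ ρ * n) :
    G.Colorable 2 := by
  classical
  -- sets of neighbours avoiding one vertex
  have hQ : ∀ x y, ∃ Q : Finset V, Q.card = L ∧ ∀ q ∈ Q, G.Adj x q ∧ q ≠ y := by
    intro x y
    obtain ⟨S, hS, hc⟩ := hdeg x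
    have h3 : L ≤ (S.erase y).card := by
      have := Finset.pred_card_le_card_erase (s := S) (a := y)
      omega
    obtain ⟨Q, hQS, hQc⟩ := Finset.exists_subset_card_eq h3
    refine ⟨Q, hQc, fun q hq => ?_⟩
    have h4 := Finset.mem_erase.1 (hQS hq)
    exact ⟨hS q h4.2, h4.1⟩
  -- any two sets of neighbours of one vertex
  have hstep1 : ∀ x, ∀ Q Q' : Finset V, Q.card = L → Q'.card = L → (∀ q ∈ Q, G.Adj x q) →
      (∀ q ∈ Q', G.Adj x q) → ((Rn G Q \ Rn G Q').card : ℝ) ≤ (2 * μ + 2 * ρ) * n := by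
    intro x Q Q' hQc hQc' hQx hQx'
    obtain ⟨S, hS, hc⟩ := hdeg x
    have h3 : (S \ (Q ∪ Q')).Nonempty := by
      rw [← Finset.card_pos]
      have h4 := Finset.le_card_sdiff (Q ∪ Q') S
      have h5 := Finset.card_union_le Q Q'
      omega
    obtain ⟨y, hy⟩ := h3
    rw [Finset.mem_sdiff, Finset.mem_union] at hy
    push Not at hy
    have hxy := hS y hy.1
    obtain ⟨Qy, hQyc, hQy⟩ := hQ y x
    refine near n μ ρ hn _ _ (Rn G Qy) (h1 _ hQc') (h1 _ hQyc) ?_ ?_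
    · exact h2 x y hxy Q Qy hQc hQyc (fun q hq => ⟨hQx q hq, fun e => hy.2.1 (e ▸ hq)⟩) hQy
    · exact h2 x y hxy Q' Qy hQc' hQyc (fun q hq => ⟨hQx' q hq, fun e => hy.2.2 (e ▸ hq)⟩) hQy
  -- representatives
  have hP : ∀ x, ∃ Q : Finset V, Q.card = L ∧ ∀ q ∈ Q, G.Adj x q := by
    intro x
    obtain ⟨Q, hQc, hQx⟩ := hQ x x
    exact ⟨Q, hQc, fun q hq => (hQx q hq).1⟩
  choose P hPc hPx using hP
  have hR1 : ∀ x, (1 / 2 - μ) * n ≤ ((Rn G (P x)).card : ℝ) := fun x => h1 _ (hPc x)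
  have hstep2 : ∀ x y, G.Adj x y →
      ((Rn G (P x) ∩ Rn G (P y)).card : ℝ) ≤ (4 * μ + 5 * ρ) * n := by
    intro x y hxy
    obtain ⟨Q, hQc, hQx⟩ := hQ x y
    obtain ⟨Q', hQc', hQy⟩ := hQ y x
    have h3 : Rn G (P x) ∩ Rn G (P y) ⊆ (Rn G (P x) \ Rn G Q) ∪ ((Rn G (P y) \ Rn G Q') ∪
        (Rn G Q ∩ Rn G Q')) := by
      intro z hz
      simp only [mem_inter, mem_union, mem_sdiff] at hz ⊢
      tauto
    have h4 : ((Rn G (P x) ∩ Rn G (P y)).card : ℝ) ≤ (Rn G (P x) \ Rn G Q).card +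
        ((Rn G (P y) \ Rn G Q').card + (Rn G Q ∩ Rn G Q').card) := by
      have h5 := Finset.card_le_card h3
      have h6 := Finset.card_union_le (Rn G (P x) \ Rn G Q) ((Rn G (P y) \ Rn G Q') ∪
        (Rn G Q ∩ Rn G Q'))
      have h7 := Finset.card_union_le (Rn G (P y) \ Rn G Q') (Rn G Q ∩ Rn G Q')
      have h8 := h5.trans (h6.trans (Nat.add_le_add_left h7 _))
      exact_mod_cast h8
    have h5 := hstep1 x (P x) Q (hPc x) hQc (hPx x) (fun q hq => (hQx q hq).1)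
    have h6 := hstep1 y (P y) Q' (hPc y) hQc' (hPx y) (fun q hq => (hQy q hq).1)
    have h7 := h2 x y hxy Q Q' hQc hQc' hQx hQy
    linarith
  have hstep3 : ∀ z w, w ∈ Rn G (P z) →
      ((Rn G (P z) \ Rn G (P w)).card : ℝ) ≤ (10 * μ + 10 * ρ) * n ∧
      ((Rn G (P w) \ Rn G (P z)).card : ℝ) ≤ (10 * μ + 10 * ρ) * n := by
    intro z w hw
    rw [mem_Rn] at hw
    obtain ⟨p, hp, hpw⟩ := hw
    have hzp := hPx z p hp
    have h3 := hstep2 z p hzp
    have h4 := hstep2 w p hpw.symm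
    have h5 := near n μ (4 * μ + 5 * ρ) hn (Rn G (P z)) (Rn G (P w)) (Rn G (P p)) (hR1 w) (hR1 p) h3 h4
    have h6 := near n μ (4 * μ + 5 * ρ) hn (Rn G (P w)) (Rn G (P z)) (Rn G (P p)) (hR1 z) (hR1 p) h4 h3
    have h7 : (2 * μ + 2 * (4 * μ + 5 * ρ)) * n = (10 * μ + 10 * ρ) * n := by ring
    rw [h7] at h5 h6
    exact ⟨h5, h6⟩
  have hne : Nonempty V := by
    rw [← Fintype.card_pos_iff]
    have : (0 : ℝ) < Fintype.card V := by rw [hn]; exact hn0
    exact_mod_cast this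
  obtain ⟨x0⟩ := hne
  set R0 := Rn G (P x0) with hR0
  have hclose : ∀ z, (Rn G (P z) ∩ R0).Nonempty →
      ((R0 \ Rn G (P z)).card : ℝ) ≤ (20 * μ + 20 * ρ) * n := by
    rintro z ⟨w, hw⟩
    rw [mem_inter] at hw
    have h3 := (hstep3 x0 w hw.2).1
    have h4 := (hstep3 z w hw.1).2
    have h5 : R0 \ Rn G (P z) ⊆ (R0 \ Rn G (P w)) ∪ (Rn G (P w) \ Rn G (P z)) := by
      intro v hv
      simp only [mem_union, mem_sdiff] at hv ⊢
      tauto
    have h6 : ((R0 \ Rn G (P z)).card : ℝ) ≤ (R0 \ Rn G (P w)).card +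
        (Rn G (P w) \ Rn G (P z)).card := by
      exact_mod_cast (Finset.card_le_card h5).trans (Finset.card_union_le _ _)
    linarith
  have hR0c : (1 / 2 - μ) * n ≤ (R0.card : ℝ) := hR1 x0
  have hμn : 0 ≤ μ * n := by positivity
  have hρn : 0 ≤ ρ * n := by positivity
  have hsn : 100 * (μ * n + ρ * n) ≤ n := by nlinarith
  refine ⟨SimpleGraph.Coloring.mk
    (fun z => if (Rn G (P z) ∩ R0).Nonempty then (0 : Fin 2) else 1) ?_⟩
  intro z z' hzz he
  have h3 := hstep2 z z' hzz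
  by_cases hz : (Rn G (P z) ∩ R0).Nonempty <;> by_cases hz' : (Rn G (P z') ∩ R0).Nonempty
  · have h4 := hclose z hz
    have h5 := hclose z' hz'
    have h6 : R0 ⊆ (R0 \ Rn G (P z)) ∪ ((R0 \ Rn G (P z')) ∪ (Rn G (P z) ∩ Rn G (P z'))) := by
      intro v hv
      simp only [mem_union, mem_sdiff, mem_inter]
      tauto
    have h7 : (R0.card : ℝ) ≤ (R0 \ Rn G (P z)).card + ((R0 \ Rn G (P z')).card +
        (Rn G (P z) ∩ Rn G (P z')).card) := by
      have h5 := Finset.card_le_card h6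
      have h6 := Finset.card_union_le (R0 \ Rn G (P z)) ((R0 \ Rn G (P z')) ∪
        (Rn G (P z) ∩ Rn G (P z')))
      have h7 := Finset.card_union_le (R0 \ Rn G (P z')) (Rn G (P z) ∩ Rn G (P z'))
      exact_mod_cast h5.trans (h6.trans (Nat.add_le_add_left h7 _))
    linarith
  · simp [hz, hz'] at he
  · simp [hz, hz'] at he
  · rw [Finset.not_nonempty_iff_eq_empty] at hz hz'
    have h4 : ((Rn G (P z) ∪ Rn G (P z')) ∩ R0) = ∅ := by
      rw [Finset.union_inter_distrib_right, hz, hz', Finset.union_empty]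
    have h5 : (((Rn G (P z) ∪ Rn G (P z')) ∪ R0).card : ℝ) +
        ((Rn G (P z) ∪ Rn G (P z')) ∩ R0).card = (Rn G (P z) ∪ Rn G (P z')).card + R0.card := by
      exact_mod_cast Finset.card_union_add_card_inter _ _
    rw [h4] at h5
    have h6 : (((Rn G (P z) ∪ Rn G (P z')) ∪ R0).card : ℝ) ≤ n := by
      rw [← hn]
      exact_mod_cast Finset.card_le_univ _
    have h7 : ((Rn G (P z) ∪ Rn G (P z')).card : ℝ) + (Rn G (P z) ∩ Rn G (P z')).card =
        (Rn G (P z)).card + (Rn G (P z')).card := by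
      exact_mod_cast Finset.card_union_add_card_inter _ _
    have h8 := hR1 z
    have h9 := hR1 z'
    simp only [card_empty, Nat.cast_zero, add_zero] at h5
    linarith

end Pool.Agent.Q6.EKR
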